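import Pool.Agent.Helper66_D2.Tool
import Pool.Agent.Helper51_D1.Wts

/-!
# Squad PP, part D2, module DFX: defect groups of central idempotents, cyclic case
-/

open scoped BigOperators

set_option linter.unusedSectionVars false

noncomputable section

namespace Pool.Agent.PP.CD2.H36

open Pool.Agent.PP Pool.Agent.Helper51_AWC Pool.Agent.Helper79_WRA Pool.Agent.PP.H20

variable {F : Type} [Field F] {G : Type} [Group G] [Finite G]

/-- the weighted sum of the conjugates -/
def tW (c z : G → F) : G → F := fun x => ∑ᶠ g : G, c g * z (g⁻¹ * x * g)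

theorem tW_mul (c c₂ z : G → F) : tW (mulF c c₂) z = tW c (tW c₂ z) := by
  have := Fintype.ofFinite G
  funext x
  unfold tW
  simp only [finsum_eq_sum_of_fintype]
  have h1 : ∀ k : G, mulF c c₂ k * z (k⁻¹ * x * k) =
      ∑ t : G, c t * (c₂ (t⁻¹ * k) * z (k⁻¹ * x * k)) := by
    intro k
    rw [mulF, finsum_eq_sum_of_fintype, Finset.sum_mul]
    exact Finset.sum_congr rfl fun t _ => mul_assoc _ _ _
  rw [Finset.sum_congr rfl fun k _ => h1 k, Finset.sum_comm]
  refine Finset.sum_congr rfl fun t _ => ?_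
  rw [Finset.mul_sum]
  symm
  refine Fintype.sum_equiv (Equiv.mulLeft t) _ _ fun g => ?_
  change c t * (c₂ g * z (g⁻¹ * (t⁻¹ * x * t) * g)) =
    c t * (c₂ (t⁻¹ * (t * g)) * z ((t * g)⁻¹ * x * (t * g)))
  rw [inv_mul_cancel_left]
  congr 3
  group

theorem isW_mul {N P P' : Subgroup G} (hPN : P ≤ N) (hP' : P' ≤ P) {c c₂ : G → F}
    (hc : IsW N P c) (hc₂ : IsW P P' c₂) : IsW N P' (mulF c c₂) := by
  classical
  have := Fintype.ofFinite G
  have := Fintype.ofFinite P
  have := Fintype.ofFinite P'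
  refine ⟨fun g hg => ?_, fun g hg => ?_⟩
  · rw [mulF, finsum_eq_sum_of_fintype]
    refine Finset.sum_eq_zero fun t _ => ?_
    by_cases ht : t ∈ N
    · rw [hc₂.supp, mul_zero]
      intro h
      apply hg
      have := mul_mem ht (hPN h)
      rwa [mul_inv_cancel_left] at this
    · rw [hc.supp t ht, zero_mul]
  · rw [finsum_eq_sum_of_fintype]
    simp only [mulF, finsum_eq_sum_of_fintype]
    rw [Finset.sum_comm]
    have h1 : ∀ t : G, ∑ p : P', c t * c₂ (t⁻¹ * (g * p)) = if t⁻¹ * g ∈ P then c t else 0 := by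
      intro t
      rw [← Finset.mul_sum]
      split_ifs with ht
      · have h2 := hc₂.sum _ ht
        rw [finsum_eq_sum_of_fintype] at h2
        have h3 : ∑ p : P', c₂ (t⁻¹ * (g * p)) = ∑ p : P', c₂ (t⁻¹ * g * p) :=
          Finset.sum_congr rfl fun p _ => by rw [mul_assoc]
        rw [h3, h2, mul_one]
      · rw [Finset.sum_eq_zero, mul_zero]
        intro p _
        apply hc₂.supp
        intro h
        apply ht
        have h4 := mul_mem h (inv_mem (hP' p.2))
        have e : t⁻¹ * (g * p) * (p : G)⁻¹ = t⁻¹ * g := by group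
        rwa [e] at h4
    rw [Finset.sum_congr rfl fun t _ => h1 t]
    have h5 := hc.sum g hg
    rw [finsum_eq_sum_of_fintype] at h5
    rw [← h5]
    have h6 : ∑ p : P, c (g * p) = ∑ s : G, if s ∈ P then c (g * s) else 0 := by
      rw [← Finset.sum_filter]
      symm
      refine Finset.sum_subtype _ (fun x => ?_) (fun s => c (g * s))
      rw [Finset.mem_filter]
      simp
    rw [h6]
    symm
    refine Fintype.sum_equiv (Equiv.mulLeft g) _ _ fun s => ?_
    change (if s ∈ P then c (g * s) else 0) = if (g * s)⁻¹ * g ∈ P then c (g * s) else 0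
    have e : (g * s)⁻¹ * g = s⁻¹ := by group
    rw [e]
    simp only [inv_mem_iff]

/-- the trace of `z e`, `e` central -/
theorem tW_right (c z : G → F) {e : G → F} (he : IsCl e) :
    tW c (mulF z e) = mulF (tW c z) e := by
  have := Fintype.ofFinite G
  funext x
  have h1 : ∀ g : G, mulF z e (g⁻¹ * x * g) = ∑ t : G, z (g⁻¹ * t * g) * e (t⁻¹ * x) := by
    intro g
    have h2 := congrFun (H66.conj_mulF g z e) x
    have h3 : (fun t => e (g⁻¹ * t * g)) = e := by
      funext t
      have := he t g⁻¹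
      rwa [inv_inv] at this
    rw [h3] at h2
    refine h2.trans ?_
    rw [mulF, finsum_eq_sum_of_fintype]
  unfold tW
  simp only [finsum_eq_sum_of_fintype]
  rw [Finset.sum_congr rfl fun g _ => by rw [h1 g]]
  rw [mulF, finsum_eq_sum_of_fintype]
  simp only [Finset.mul_sum, Finset.sum_mul]
  rw [Finset.sum_comm]
  exact Finset.sum_congr rfl fun t _ => Finset.sum_congr rfl fun g _ => (mul_assoc _ _ _).symm

/-- the trace of `z a`, `z` invariant -/
theorem tW_left {P : Subgroup G} {c z : G → F} (a : G → F) (hc : ∀ g, g ∉ P → c g = 0)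
    (hz : CmF P z) : tW c (mulF z a) = mulF z (tW c a) := by
  have := Fintype.ofFinite G
  funext x
  have h1 : ∀ g : G, c g * mulF z a (g⁻¹ * x * g) =
      ∑ t : G, z t * (c g * a (g⁻¹ * (t⁻¹ * x) * g)) := by
    intro g
    by_cases hg : g ∈ P
    · have h2 := congrFun (H66.conj_mulF g z a) x
      have h3 : (fun t => z (g⁻¹ * t * g)) = z := by
        funext t
        have := hz g⁻¹ (inv_mem hg) t
        rwa [inv_inv] at this
      rw [h3] at h2
      have h4 : mulF z a (g⁻¹ * x * g) = ∑ t : G, z t * a (g⁻¹ * (t⁻¹ * x) * g) := by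
        refine h2.trans ?_
        rw [mulF, finsum_eq_sum_of_fintype]
      rw [h4, Finset.mul_sum]
      refine Finset.sum_congr rfl fun t _ => ?_
      ring
    · rw [hc g hg, zero_mul]
      symm
      refine Finset.sum_eq_zero fun t _ => ?_
      rw [zero_mul, mul_zero]
  unfold tW
  simp only [finsum_eq_sum_of_fintype]
  rw [Finset.sum_congr rfl fun g _ => h1 g]
  rw [mulF, finsum_eq_sum_of_fintype]
  simp only [Finset.mul_sum]
  rw [Finset.sum_comm]

/-- `e` is a trace from `P'` to `P` if the Brauer map of `e` vanishes and the stabilisers of the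
elements outside the centraliser are contained in `P'` -/
theorem exists_tr {P P' : Subgroup G} (hP' : P' ≤ P) (hab : ∀ s ∈ P, ∀ t ∈ P, s * t = t * s)
    (hst : ∀ x, x ∉ Subgroup.centralizer (P : Set G) → ∀ p ∈ P, p * x = x * p → p ∈ P')
    {e : G → F} (he : CmF P e) (h0 : ∀ x ∈ Subgroup.centralizer (P : Set G), e x = 0)
    {c : G → F} (hc : IsW P P' c) : ∃ a : G → F, CmF P' a ∧ tW c a = e := by
  classical
  have := Fintype.ofFinite G
  have := Fintype.ofFinite P'
  -- representatives
  let S : Setoid G :=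
    { r := fun x y => ∃ p ∈ P, p * x * p⁻¹ = y
      iseqv :=
        { refl := fun x => ⟨1, one_mem _, by simp⟩
          symm := by
            rintro x _ ⟨p, hp, rfl⟩
            exact ⟨p⁻¹, inv_mem hp, by group⟩
          trans := by
            rintro x _ _ ⟨p, hp, rfl⟩ ⟨q, hq, rfl⟩
            exact ⟨q * p, mul_mem hq hp, by group⟩ } }
  obtain ⟨r, hr1, hr2⟩ : ∃ r : G → G, (∀ x, ∃ p ∈ P, p * r x * p⁻¹ = x) ∧
      ∀ x, ∀ p ∈ P, r (p * x * p⁻¹) = r x := by
    refine ⟨fun x => (Quotient.mk S x).out, fun x => ?_, fun x p hp => ?_⟩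
    · exact Quotient.exact (s := S) (Quotient.out_eq (Quotient.mk S x))
    · have h : Quotient.mk S (p * x * p⁻¹) = Quotient.mk S x :=
        Quotient.sound (s := S) ⟨p⁻¹, inv_mem hp, by group⟩
      change (Quotient.mk S (p * x * p⁻¹)).out = (Quotient.mk S x).out
      rw [h]
  have ha : ∀ x : G, ∀ q ∈ P, (∃ p ∈ P', p * r x * p⁻¹ = q⁻¹ * x * q) →
      x ∉ Subgroup.centralizer (P : Set G) → ∀ p₀ ∈ P, p₀ * r x * p₀⁻¹ = x → p₀⁻¹ * q ∈ P' := by
    rintro x q hq ⟨p, hp, hpx⟩ hx p₀ hp₀ h
    have h1 : (p⁻¹ * (q⁻¹ * p₀)) * r x = r x * (p⁻¹ * (q⁻¹ * p₀)) := by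
      have h2 : p * r x * p⁻¹ = q⁻¹ * (p₀ * r x * p₀⁻¹) * q := by rw [h, hpx]
      have h3 : r x = p⁻¹ * (p * r x * p⁻¹) * p := by group
      have h4 : r x * (p⁻¹ * (q⁻¹ * p₀)) =
          p⁻¹ * (p * r x * p⁻¹) * p * (p⁻¹ * (q⁻¹ * p₀)) := by rw [← h3]
      rw [h4, h2]
      group
    have hrx : r x ∉ Subgroup.centralizer (P : Set G) := by
      intro h5
      apply hx
      rw [← h]
      rw [Subgroup.mem_centralizer_iff] at h5 ⊢
      intro t ht
      have h6 := h5 p₀ hp₀
      have h7 : p₀ * r x * p₀⁻¹ = r x := by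
        rw [h6, mul_inv_cancel_right]
      rw [h7]
      exact h5 t ht
    have h5 := hst _ hrx _ (mul_mem (inv_mem (hP' hp)) (mul_mem (inv_mem hq) hp₀)) h1
    have h6 := mul_mem hp h5
    rw [mul_inv_cancel_left] at h6
    have h7 := inv_mem h6
    have e1 : (q⁻¹ * p₀)⁻¹ = p₀⁻¹ * q := by group
    rwa [e1] at h7
  refine ⟨fun x => if ∃ p ∈ P', p * r x * p⁻¹ = x then e x else 0, ?_, ?_⟩
  · intro p hp x
    have h1 : (∃ q ∈ P', q * r (p * x * p⁻¹) * q⁻¹ = p * x * p⁻¹) ↔
        ∃ q ∈ P', q * r x * q⁻¹ = x := by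
      rw [hr2 x p (hP' hp)]
      constructor
      · rintro ⟨q, hq, h⟩
        refine ⟨p⁻¹ * q, mul_mem (inv_mem hp) hq, ?_⟩
        have h2 : p⁻¹ * (q * r x * q⁻¹) * p = x := by
          rw [h]
          group
        refine Eq.trans ?_ h2
        group
      · rintro ⟨q, hq, h⟩
        refine ⟨p * q, mul_mem hp hq, ?_⟩
        have h2 : p * (q * r x * q⁻¹) * p⁻¹ = p * x * p⁻¹ := by rw [h]
        refine Eq.trans ?_ h2
        group
    change (if ∃ q ∈ P', q * r (p * x * p⁻¹) * q⁻¹ = p * x * p⁻¹ then e (p * x * p⁻¹) else 0) =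
      if ∃ q ∈ P', q * r x * q⁻¹ = x then e x else 0
    rw [he p (hP' hp) x]
    by_cases h : ∃ q ∈ P', q * r x * q⁻¹ = x
    · rw [if_pos h, if_pos (h1.2 h)]
    · rw [if_neg h, if_neg fun h' => h (h1.1 h')]
  · funext x
    unfold tW
    rw [finsum_eq_sum_of_fintype]
    by_cases hx : x ∈ Subgroup.centralizer (P : Set G)
    · rw [h0 x hx]
      refine Finset.sum_eq_zero fun g _ => ?_
      by_cases hg : g ∈ P
      · have h1 : g⁻¹ * x * g = x := by
          have := Subgroup.mem_centralizer_iff.1 hx g hg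
          rw [mul_assoc, ← this, inv_mul_cancel_left]
        rw [h1]
        change c g * (if ∃ p ∈ P', p * r x * p⁻¹ = x then e x else 0) = 0
        rw [h0 x hx]
        simp
      · rw [hc.supp g hg, zero_mul]
    · obtain ⟨p₀, hp₀, h₀⟩ := hr1 x
      have h1 : ∀ g : G, c g * (if ∃ p ∈ P', p * r (g⁻¹ * x * g) * p⁻¹ = g⁻¹ * x * g then
          e (g⁻¹ * x * g) else 0) = if p₀⁻¹ * g ∈ P' then c g * e x else 0 := by
        intro g
        by_cases hg : g ∈ P
        · have h2 : r (g⁻¹ * x * g) = r x := by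
            have := hr2 x g⁻¹ (inv_mem hg)
            rwa [inv_inv] at this
          have h3 : e (g⁻¹ * x * g) = e x := by
            have := he g⁻¹ (inv_mem hg) x
            rwa [inv_inv] at this
          rw [h2, h3]
          by_cases h4 : ∃ p ∈ P', p * r x * p⁻¹ = g⁻¹ * x * g
          · rw [if_pos h4, if_pos (ha x g hg h4 hx p₀ hp₀ h₀)]
          · rw [if_neg h4, if_neg, mul_zero]
            intro h5
            apply h4
            refine ⟨g⁻¹ * p₀, ?_, ?_⟩
            · have := inv_mem h5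
              have e1 : (p₀⁻¹ * g)⁻¹ = g⁻¹ * p₀ := by group
              rwa [e1] at this
            · have e1 : g⁻¹ * p₀ * r x * (g⁻¹ * p₀)⁻¹ = g⁻¹ * (p₀ * r x * p₀⁻¹) * g := by group
              rw [e1, h₀]
        · rw [hc.supp g hg, zero_mul, if_neg]
          intro h5
          apply hg
          have := mul_mem hp₀ (hP' h5)
          rwa [mul_inv_cancel_left] at this
      rw [Finset.sum_congr rfl fun g _ => h1 g]
      have h2 := hc.sum p₀ hp₀
      rw [finsum_eq_sum_of_fintype] at h2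
      have h3 : ∑ g : G, (if p₀⁻¹ * g ∈ P' then c g * e x else 0) =
          ∑ s : G, if s ∈ P' then c (p₀ * s) * e x else 0 := by
        symm
        refine Fintype.sum_equiv (Equiv.mulLeft p₀) _ _ fun s => ?_
        change _ = if p₀⁻¹ * (p₀ * s) ∈ P' then c (p₀ * s) * e x else 0
        rw [inv_mul_cancel_left]
      have h4 : ∑ p : P', c (p₀ * p) * e x = ∑ s : G, if s ∈ P' then c (p₀ * s) * e x else 0 := by
        rw [← Finset.sum_filter]
        symm
        refine Finset.sum_subtype _ (fun x => ?_) (fun s => c (p₀ * s) * e _)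
        rw [Finset.mem_filter]
        simp
      rw [h3, ← h4, ← Finset.sum_mul, h2, one_mul]

/-- DFX -/
theorem dfx : DfxStmt := by
  intro ℓ hℓ F _ hF G _ _ P hP hcy e he he0 hprj
  obtain ⟨n, hn⟩ : ∃ n, n = Nat.card P := ⟨_, rfl⟩
  induction n using Nat.strong_induction_on generalizing P with
  | _ n ih =>
    by_cases hbr : br P e ≠ 0
    · exact ⟨P, le_rfl, hprj, hbr⟩
    rw [not_not] at hbr
    have hz0 : ∀ x ∈ Subgroup.centralizer (P : Set G), e x = 0 := by
      intro x hx
      have h := congrFun hbr x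
      unfold br at h
      rw [if_pos hx] at h
      exact h
    -- a generator
    obtain ⟨⟨y, hyP⟩, hgen⟩ := hcy.exists_generator
    have hPz : P = Subgroup.zpowers y := by
      apply le_antisymm
      · intro p hp
        obtain ⟨k, hk⟩ := Subgroup.mem_zpowers_iff.1 (hgen ⟨p, hp⟩)
        refine Subgroup.mem_zpowers_iff.2 ⟨k, ?_⟩
        have := congrArg (fun t : P => (t : G)) hk
        simpa using this
      · rw [Subgroup.zpowers_le]
        exact hyP
    obtain ⟨m, hm⟩ : ∃ m, orderOf y = ℓ ^ m := by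
      obtain ⟨k, hk⟩ := hP ⟨y, hyP⟩
      have h1 : y ^ ℓ ^ k = 1 := by
        have := congrArg (fun t : P => (t : G)) hk
        simpa using this
      obtain ⟨m, -, hm⟩ := (Nat.dvd_prime_pow hℓ.out).1 (orderOf_dvd_of_pow_eq_one h1)
      exact ⟨m, hm⟩
    have hm0 : m ≠ 0 := by
      rintro rfl
      rw [pow_zero, orderOf_eq_one_iff] at hm
      apply he0
      funext x
      apply hz0
      rw [hPz, hm, Subgroup.mem_centralizer_iff]
      intro h hh
      rw [Subgroup.zpowers_one_eq_bot] at hh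
      have : h = 1 := Subgroup.mem_bot.1 hh
      rw [this, one_mul, mul_one]
    obtain ⟨P', hP'def⟩ : ∃ P' : Subgroup G, P' = Subgroup.zpowers (y ^ ℓ) := ⟨_, rfl⟩
    have hP'P : P' ≤ P := by
      rw [hP'def, Subgroup.zpowers_le, hPz]
      exact Subgroup.npow_mem_zpowers y ℓ
    have hab : ∀ s ∈ P, ∀ t ∈ P, s * t = t * s := by
      intro s hs t ht
      have hcg := hcy.commGroup
      have h1 := mul_comm' (⟨s, hs⟩ : P) ⟨t, ht⟩
      exact congrArg (fun r : P => (r : G)) h1
    have hyP' : y ∉ P' := by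
      intro h
      rw [hP'def] at h
      obtain ⟨k, hk⟩ := Subgroup.mem_zpowers_iff.1 h
      have h1 : y ^ ((ℓ : ℤ) * k - 1) = 1 := by
        rw [zpow_sub, zpow_mul, zpow_natCast, hk, zpow_one, mul_inv_cancel]
      have h2 := orderOf_dvd_iff_zpow_eq_one.2 h1
      have h3 : (ℓ : ℤ) ∣ (ℓ : ℤ) * k - 1 := by
        refine dvd_trans ?_ h2
        rw [hm]
        push_cast
        exact dvd_pow_self _ hm0
      have h4 : (ℓ : ℤ) ∣ 1 := by
        have h5 := dvd_sub (Dvd.intro k rfl : (ℓ : ℤ) ∣ ℓ * k) h3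
        rwa [sub_sub_cancel] at h5
      have h5 : ℓ ∣ 1 := by exact_mod_cast h4
      exact hℓ.out.one_lt.ne' (Nat.dvd_one.1 h5)
    have hlt : Nat.card P' < n := by
      rw [hn]
      have h1 : P' < P := lt_of_le_of_ne hP'P fun h => hyP' (by rw [h]; exact hyP)
      exact Set.ncard_lt_ncard (SetLike.coe_ssubset_coe.2 h1) (Set.toFinite _)
    have hst : ∀ x, x ∉ Subgroup.centralizer (P : Set G) → ∀ p ∈ P, p * x = x * p → p ∈ P' := by
      intro x hx p hp hpx
      rw [hPz] at hp
      obtain ⟨k, rfl⟩ := Subgroup.mem_zpowers_iff.1 hp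
      by_cases hk : (ℓ : ℤ) ∣ k
      · obtain ⟨j, rfl⟩ := hk
        rw [hP'def]
        refine Subgroup.mem_zpowers_iff.2 ⟨j, ?_⟩
        rw [zpow_mul, zpow_natCast]
      · exfalso
        apply hx
        have hcop : IsCoprime k ((orderOf y : ℕ) : ℤ) := by
          rw [hm]
          push_cast
          apply IsCoprime.pow_right
          exact ((Nat.prime_iff_prime_int.1 hℓ.out).coprime_iff_not_dvd.2 hk).symm
        obtain ⟨u, v, huv⟩ := hcop
        have h1 : y = (y ^ k) ^ u := by
          have h2 : y ^ (u * k + v * (orderOf y : ℤ)) = y := by rw [huv, zpow_one]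
          rw [zpow_add, mul_comm v, zpow_mul y (orderOf y : ℤ) v, zpow_natCast,
            pow_orderOf_eq_one, one_zpow, mul_one, mul_comm u, zpow_mul] at h2
          exact h2.symm
        have h2 : Commute y x := by
          rw [h1]
          exact Commute.zpow_left hpx u
        rw [hPz, Subgroup.mem_centralizer_iff]
        intro h hh
        obtain ⟨j, rfl⟩ := Subgroup.mem_zpowers_iff.1 hh
        exact (Commute.zpow_left h2 j)
    obtain ⟨c, z, hc, -, hz, hez⟩ := hprj
    obtain ⟨c₂, hc₂⟩ := D1H51.exists_w F hP'P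
    obtain ⟨a, ha, hae⟩ := exists_tr hP'P hab hst (H66.cmF_of_cl he.1 P) hz0 hc₂
    have h1 : e = tW c z := funext hez
    have h2 : e = tW (mulF c c₂) (mulF z a) := by
      calc e = mulF e e := he.2.symm
        _ = mulF (tW c z) e := by rw [← h1]
        _ = tW c (mulF z e) := (tW_right c z he.1).symm
        _ = tW c (mulF z (tW c₂ a)) := by rw [hae]
        _ = tW c (tW c₂ (mulF z a)) := by rw [tW_left a hc₂.supp hz]
        _ = tW (mulF c c₂) (mulF z a) := (tW_mul _ _ _).symm
    have hprj' : PrjB (⊤ : Subgroup G) P' e := by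
      refine ⟨mulF c c₂, mulF z a, isW_mul le_top hP'P hc hc₂,
        fun x hx => absurd (Subgroup.mem_top x) hx, ?_, fun x => congrFun h2 x⟩
      have hz' : CmF P z := hz
      exact (hz'.mono hP'P).mul ha
    have hcy' : IsCyclic P' := by
      rw [hP'def]
      infer_instance
    obtain ⟨Q, hQ, hQ1, hQ2⟩ := ih (Nat.card P') hlt P' (hP.to_le hP'P) hcy' hprj' rfl
    exact ⟨Q, hQ.trans hP'P, hQ1, hQ2⟩

end Pool.Agent.PP.CD2.H36
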