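import Pool.Agent.Helper66_D2.Tool
import Pool.Agent.Helper46_D1.Ind
import Pool.Agent.Helper90_BN.Dze

/-!
# Squad PP, part D2, module UQ1: there is one irreducible representation over the block
-/

open scoped BigOperators

set_option linter.unusedSectionVars false

noncomputable section

namespace Pool.Agent.PP.CD2.H36

open Pool.Agent.PP Pool.Agent.Helper51_AWC Pool.Agent.Helper79_WRA Pool.Agent.PP.H20

section res

variable {F : Type} [Field F] {G : Type} [Group G] [Finite G]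

/-- restriction to a subgroup -/
def rs (C : Subgroup G) (a : G → F) : C → F := fun t => a t

theorem rs_mulF {C : Subgroup G} {a : G → F} (ha : SpF C a) (c : G → F) :
    rs C (mulF a c) = mulF (rs C a) (rs C c) := by
  classical
  have := Fintype.ofFinite G
  have := Fintype.ofFinite C
  funext t
  unfold rs mulF
  simp only [finsum_eq_sum_of_fintype]
  have h1 : ∑ s : G, a s * c (s⁻¹ * t) = ∑ s : G, if s ∈ C then a s * c (s⁻¹ * t) else 0 := by
    refine Finset.sum_congr rfl fun s _ => ?_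
    split_ifs with h
    · rfl
    · rw [ha s h, zero_mul]
  rw [h1, ← Finset.sum_filter]
  refine Finset.sum_subtype _ (fun x => ?_) (fun s => a s * c (s⁻¹ * t))
  rw [Finset.mem_filter]
  simp

theorem rs_pwF {C : Subgroup G} {w : G → F} (hw : SpF C w) (a : G → F) (s : ℕ) :
    rs C (pwF w s a) = pwF (rs C w) s (rs C a) := by
  induction s with
  | zero => rfl
  | succ s ih => rw [H66.pwF_succ, H66.pwF_succ, rs_mulF hw, ih]

theorem rs_ext (C : Subgroup G) (a : C → F) : rs C (extF C a) = a := by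
  funext t
  unfold rs extF
  rw [dif_pos t.2]

theorem sp_ext (C : Subgroup G) (a : C → F) : SpF C (extF C a) := by
  intro x hx
  unfold extF
  rw [dif_neg hx]

variable {m : ℕ} {C : Subgroup G} (κ : C →* Matrix (Fin m) (Fin m) F)

/-- the value of `κ` -/
def eC (a : G → F) : Matrix (Fin m) (Fin m) F := ev κ (rs C a)

theorem eC_eq (a : G → F) : eC κ a =
    MonoidAlgebra.lift F (Matrix (Fin m) (Fin m) F) C κ (toMA (rs C a)) := (lift_toMA κ _).symm

theorem eC_mul {a : G → F} (ha : SpF C a) (c : G → F) : eC κ (mulF a c) = eC κ a * eC κ c := by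
  rw [eC_eq, rs_mulF ha, toMA_mulF, map_mul, ← eC_eq, ← eC_eq]

theorem eC_zero : eC κ (0 : G → F) = 0 := by
  rw [eC_eq]
  have : rs C (0 : G → F) = 0 := rfl
  rw [this, toMA_zero, map_zero]

theorem eC_add (a c : G → F) : eC κ (a + c) = eC κ a + eC κ c := by
  have : rs C (a + c) = rs C a + rs C c := rfl
  rw [eC_eq, this, toMA_add, map_add, ← eC_eq, ← eC_eq]

theorem eC_smul (α : F) (a : G → F) : eC κ (α • a) = α • eC κ a := by
  have : rs C (α • a) = α • rs C a := rfl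
  rw [eC_eq, this, toMA_smul, map_smul, ← eC_eq]

theorem eC_sum {ι : Type} (s : Finset ι) (a : ι → G → F) :
    eC κ (∑ k ∈ s, a k) = ∑ k ∈ s, eC κ (a k) := by
  classical
  induction s using Finset.induction_on with
  | empty => rw [Finset.sum_empty, Finset.sum_empty, eC_zero]
  | insert x s hx ih => rw [Finset.sum_insert hx, Finset.sum_insert hx, eC_add, ih]

theorem eC_pwF {w : G → F} (hw : SpF C w) (a : G → F) (s : ℕ) :
    eC κ (pwF w s a) = eC κ w ^ s * eC κ a := by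
  induction s with
  | zero => rw [H66.pwF_zero, pow_zero, one_mul]
  | succ s ih => rw [H66.pwF_succ, eC_mul κ hw, ih, pow_succ', mul_assoc]

end res

section loc

variable {F : Type} [Field F] {G : Type} [Group G] [Finite G] {m : ℕ} {C D : Subgroup G}
  {κ : D →* Matrix (Fin m) (Fin m) F} {b₁ w i : G → F} {q : ℕ}

theorem eC_i (hκ : IsIrr κ) (hCD : C ≤ D) (hU : UMF C b₁ w i q) (h1 : eC κ b₁ = 1) :
    eC κ i ≠ 0 := by
  intro h0
  obtain ⟨r, x, y, hxy, hs⟩ := hU.full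
  have h2 : eC κ b₁ = 0 := by
    rw [← hs, eC_sum]
    refine Finset.sum_eq_zero fun k _ => ?_
    rw [eC_mul κ ((hxy k).1.mono hCD), eC_mul κ (hU.si.mono hCD), h0, zero_mul, mul_zero]
  rw [h1] at h2
  have : NeZero m := ⟨hκ.1.ne'⟩
  exact one_ne_zero h2

theorem eC_w (hκ : IsIrr κ) (hCD : C ≤ D) (hDC : D ≤ C) (hU : UMF C b₁ w i q)
    (h1 : eC κ b₁ = 1) : eC κ w = 0 := by
  have hN : NeZero m := ⟨hκ.1.ne'⟩
  have hcl : IsCl (rs D w) := fun x y => hU.cw y (hDC y.2) x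
  obtain ⟨c, hc⟩ := comm_scalar (eC κ w) (by
    intro N
    have hN' : N ∈ Submodule.span F (Set.range κ) := by rw [hκ.2]; trivial
    induction hN' using Submodule.span_induction with
    | mem x hx =>
      obtain ⟨t, rfl⟩ := hx
      exact ev_class κ (rs D w) hcl t
    | zero => rw [zero_mul, mul_zero]
    | add x y _ _ hx hy => rw [add_mul, mul_add, hx, hy]
    | smul c x _ hx => rw [Matrix.smul_mul, Matrix.mul_smul, hx])
  have h2 : eC κ w ^ q = 0 := by
    have h3 := eC_pwF κ (hU.sw.mono hCD) b₁ q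
    rw [hU.nil, eC_zero, h1, mul_one] at h3
    exact h3.symm
  rw [hc, smul_pow, one_pow] at h2
  have h4 : c ^ q = 0 := by
    by_contra h5
    exact (one_ne_zero : (1 : Matrix (Fin m) (Fin m) F) ≠ 0)
      ((smul_eq_zero.1 h2).resolve_left h5)
  have h5 : c = 0 := by
    rcases Nat.eq_zero_or_pos q with h | h
    · rw [h, pow_zero] at h4
      exact absurd h4 one_ne_zero
    · exact (pow_eq_zero_iff h.ne').1 h4
  rw [hc, h5, zero_smul]

/-- the corner of `κ` -/
theorem eC_loc (hκ : IsIrr κ) (hCD : C ≤ D) (hDC : D ≤ C) (hU : UMF C b₁ w i q)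
    (h1 : eC κ b₁ = 1) (hq : 0 < q) {a : G → F} (ha : SpF C a) {α : ℕ → F}
    (h : mulF i (mulF a i) = ∑ s ∈ Finset.range q, α s • pwF w s i) :
    eC κ i * (eC κ a * eC κ i) = α 0 • eC κ i := by
  have h2 := congrArg (eC κ) h
  rw [eC_mul κ (hU.si.mono hCD), eC_mul κ (ha.mono hCD), eC_sum] at h2
  rw [h2, Finset.sum_eq_single 0]
  · rw [eC_smul]
    rfl
  · intro s _ hs
    rw [eC_smul, eC_pwF κ (hU.sw.mono hCD), eC_w hκ hCD hDC hU h1, zero_pow hs, zero_mul,
      smul_zero]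
  · intro h3
    exact absurd (Finset.mem_range.2 hq) h3

theorem exists_a (hκ : IsIrr κ) (M : Matrix (Fin m) (Fin m) F) :
    ∃ a : G → F, SpF D a ∧ eC κ a = M := by
  obtain ⟨x, hx⟩ := (lift_surjective κ).2 hκ.2 M
  obtain ⟨a, rfl⟩ := toMA_surjective x
  exact ⟨extF D a, sp_ext D a, by rw [eC_eq, rs_ext, hx]⟩

/-- `κ(i)` has rank one -/
theorem rank_one (hκ : IsIrr κ) (hCD : C ≤ D) (hDC : D ≤ C) (hU : UMF C b₁ w i q)
    (h1 : eC κ b₁ = 1) (hq : 0 < q) : ∃ u : Fin m → F, u ≠ 0 ∧ (eC κ i).mulVec u = u ∧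
      ∀ v : Fin m → F, ∃ α : F, (eC κ i).mulVec v = α • u := by
  classical
  have hi := eC_i hκ hCD hU h1
  have hii : eC κ i * eC κ i = eC κ i := by
    rw [← eC_mul κ (hU.si.mono hCD), hU.ii]
  obtain ⟨v₀, hv₀⟩ : ∃ v₀ : Fin m → F, (eC κ i).mulVec v₀ ≠ 0 := by
    by_contra hcon
    push Not at hcon
    apply hi
    ext r s
    have := congrFun (hcon (Pi.single s 1)) r
    rw [Matrix.mulVec_single_one] at this
    exact this
  obtain ⟨u, hu⟩ : ∃ u, u = (eC κ i).mulVec v₀ := ⟨_, rfl⟩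
  have hu0 : u ≠ 0 := by rw [hu]; exact hv₀
  have hiu : (eC κ i).mulVec u = u := by
    rw [hu, Matrix.mulVec_mulVec, hii]
  refine ⟨u, hu0, hiu, fun v => ?_⟩
  obtain ⟨r, hr⟩ : ∃ r, u r ≠ 0 := by
    by_contra hcon
    push Not at hcon
    exact hu0 (funext hcon)
  obtain ⟨a, ha, haM⟩ := exists_a (G := G) hκ (Matrix.vecMulVec v (Pi.single r (u r)⁻¹))
  obtain ⟨α, hα⟩ := hU.loc a (ha.mono hDC)
  have h2 := eC_loc hκ hCD hDC hU h1 hq (ha.mono hDC) hα
  have h3 : (eC κ a).mulVec u = v := by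
    rw [haM, Matrix.vecMulVec_mulVec]
    have h4 : (Pi.single r (u r)⁻¹ : Fin m → F) ⬝ᵥ u = 1 := by
      rw [single_dotProduct, inv_mul_cancel₀ hr]
    rw [h4]
    simp
  refine ⟨α 0, ?_⟩
  have h5 : (eC κ i * (eC κ a * eC κ i)).mulVec u = (α 0 • eC κ i).mulVec u := by rw [h2]
  rw [← Matrix.mulVec_mulVec, ← Matrix.mulVec_mulVec, hiu, h3, Matrix.smul_mulVec, hiu] at h5
  exact h5

/-- `κ` is unique -/
theorem kap_uniq {ℓ : ℕ} (hF : GoodF ℓ F) {m' : ℕ} {κ' : D →* Matrix (Fin m') (Fin m') F}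
    (hκ : IsIrr κ) (hκ' : IsIrr κ') (hCD : C ≤ D) (hDC : D ≤ C)
    (hU : UMF C b₁ w i q) (h1 : eC κ b₁ = 1) (h1' : eC κ' b₁ = 1) (hq : 0 < q) :
    tr κ = tr κ' := by
  classical
  by_contra hne
  obtain ⟨a', ha'⟩ := ibj ℓ F hF D Bool (fun t => bif t then m else m')
    (fun t => match t with
      | true => κ
      | false => κ') (by
      intro t
      cases t
      · exact hκ'
      · exact hκ) (by
      intro s t hst
      cases s <;> cases t
      · rfl
      · exact absurd hst.symm hne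
      · exact absurd hst hne
      · rfl) (fun t => match t with
      | true => (1 : Matrix (Fin m) (Fin m) F)
      | false => (0 : Matrix (Fin m') (Fin m') F))
  have e1 : ev κ a' = 1 := ha' true
  have e2 : ev κ' a' = 0 := ha' false
  have e1' : eC κ (extF D a') = 1 := by
    unfold eC
    rw [rs_ext, e1]
  have e2' : eC κ' (extF D a') = 0 := by
    unfold eC
    rw [rs_ext, e2]
  obtain ⟨α, hα⟩ := hU.loc (extF D a') ((sp_ext D a').mono hDC)
  have h2 := eC_loc hκ hCD hDC hU h1 hq ((sp_ext D a').mono hDC) hα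
  have h3 := eC_loc hκ' hCD hDC hU h1' hq ((sp_ext D a').mono hDC) hα
  rw [e1', one_mul] at h2
  rw [e2', zero_mul, mul_zero] at h3
  have hii : eC κ i * eC κ i = eC κ i := by
    rw [← eC_mul κ (hU.si.mono hCD), hU.ii]
  have h4 : α 0 = 0 := (smul_eq_zero.1 h3.symm).resolve_right (eC_i hκ' hCD hU h1')
  rw [hii, h4, zero_smul] at h2
  exact eC_i hκ hCD hU h1 h2

end loc

/-- UQ1 -/
theorem uq1 (ird : IrdStmt) (ind : IndStmt) (ebd : EbdStmt) : Uq1Stmt := by
  intro ℓ hℓ F _ hF G _ _ n P y₁ b w i hD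
  have hU := hD.umf
  have hCD : CY y₁ ≤ NY y₁ := H66.CY_le_NY y₁
  have hDC : NY y₁ ≤ CY y₁ := hD.nc
  have hq : 0 < ℓ ^ (n + 1) := pow_pos hℓ.out.pos _
  have hN := Fintype.ofFinite G
  -- the representation of the normaliser
  have hone : ∀ (k : ℕ) (σ : G →* Matrix (Fin k) (Fin k) F) (m : ℕ)
      (κ : NY y₁ →* Matrix (Fin m) (Fin m) F)
      (π : (Fin k → F) →ₗ[F] (Fin m → F)), IsIrr κ → ev σ b = 1 →
      HW (NY y₁).subtype κ (mrep σ) π (fixW (mrep σ) (bY y₁ b) w)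
        (rngW (mrep σ) w (ℓ ^ (n + 1) - 1)) → eC κ (bY y₁ b) = 1 := by
    intro k σ m κ π hκ hσ hHW
    have h := ebd ℓ F hF G n ⊤ P y₁ b w hD.d2s (NY y₁) (NY y₁).subtype
      (Subgroup.subtype_injective _) (Subgroup.range_subtype _) k σ m κ π hκ hHW b 1
      hD.blk.1.1 (by rw [hσ, map_one])
    rw [map_one] at h
    exact h
  obtain ⟨k, σ, hσ, hσb⟩ := BN.H90.exists_rep ibn hF hD.blk.1 hD.blk.2.1
  obtain ⟨c, hc1, -, hc2⟩ := eig F G k σ hσ b hD.blk.1.1
  have hσ1 : ev σ b = 1 := by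
    rcases hc2 hD.blk.1 with h | h
    · rw [h, map_zero] at hc1
      exact absurd hc1 hσb
    · rw [hc1, h, map_one]
  obtain ⟨m, κ, π, hκ, hHW⟩ := ird ℓ F hF G n ⊤ P y₁ b w hD.d2s (NY y₁) (NY y₁).subtype
    (Subgroup.range_subtype _) k σ hσ hσ1
  have hκ1 := hone k σ m κ π hκ hσ1 hHW
  refine ⟨k, σ, ⟨hσ, hσ1, fun k' σ' hσ' hσ1' => ?_⟩, ?_⟩
  · obtain ⟨m', κ', π', hκ', hHW'⟩ := ird ℓ F hF G n ⊤ P y₁ b w hD.d2s (NY y₁)
      (NY y₁).subtype (Subgroup.range_subtype _) k' σ' hσ' hσ1'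
    have hκ1' := hone k' σ' m' κ' π' hκ' hσ1' hHW'
    exact ind ℓ F hF G n ⊤ P y₁ b w hD.d2s (NY y₁) (NY y₁).subtype
      (Subgroup.range_subtype _) k' k σ' σ hσ' hσ hσ1' hσ1 m' m κ' κ π' π hκ' hκ
      (kap_uniq hF hκ' hκ hCD hDC hU hκ1' hκ1 hq) hHW' hHW
  · obtain ⟨u, hu0, hiu, hur⟩ := rank_one hκ hCD hDC hU hκ1 hq
    obtain ⟨v, hv, hvu⟩ := hHW.sur u
    -- `π` and `i`
    have hπi : ∀ v ∈ fixW (mrep σ) (bY y₁ b) w, π (evV (mrep σ) i v) =
        (eC κ i).mulVec (π v) := by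
      classical
      intro v hv
      have := Fintype.ofFinite (NY y₁)
      rw [D66.evV_apply, map_sum]
      have h1 : ∀ g : G, π (i g • mrep σ g v) =
          if g ∈ NY y₁ then π (i g • mrep σ g v) else 0 := by
        intro g
        split_ifs with h
        · rfl
        · rw [hU.si g fun h' => h (hCD h'), zero_smul, map_zero]
      rw [Finset.sum_congr rfl fun g _ => h1 g, ← Finset.sum_filter]
      have h2 : ∑ g ∈ Finset.univ.filter (fun g => g ∈ NY y₁), π (i g • mrep σ g v) =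
          ∑ g : NY y₁, π (i g • mrep σ (g : G) v) := by
        refine Finset.sum_subtype _ (fun x => ?_) (fun g => π (i g • mrep σ g v))
        rw [Finset.mem_filter]
        simp
      rw [h2]
      unfold eC ev
      rw [finsum_eq_sum_of_fintype, Matrix.sum_mulVec]
      refine Finset.sum_congr rfl fun g _ => ?_
      rw [map_smul, Matrix.smul_mulVec]
      have h3 := hHW.int g v hv
      change i g • π (mrep σ (g : G) v) = i g • (κ g).mulVec (π v)
      rw [← h3]
      rfl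
    have hcomm : ∀ v, evV (mrep σ) w (evV (mrep σ) i v) = evV (mrep σ) i (evV (mrep σ) w v) := by
      intro v
      rw [← H66.evV_mulF_apply, ← H66.evV_mulF_apply, H66.cm_comm hU.cw hU.si]
    have hbi : ∀ v, evV (mrep σ) (bY y₁ b) (evV (mrep σ) i v) = evV (mrep σ) i v := by
      intro v
      rw [← H66.evV_mulF_apply, hU.bi]
    have hii : ∀ v, evV (mrep σ) i (evV (mrep σ) i v) = evV (mrep σ) i v := by
      intro v
      rw [← H66.evV_mulF_apply, hU.ii]
    have ht : evV (mrep σ) i v ∈ fixW (mrep σ) (bY y₁ b) w :=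
      ⟨hbi v, by rw [hcomm, hv.2, map_zero]⟩
    have hπt : π (evV (mrep σ) i v) = u := by
      rw [hπi v hv, hvu, hiu]
    refine ⟨evV (mrep σ) i v, ht, hii v, ?_, ?_⟩
    · intro h
      apply hu0
      rw [← hπt]
      exact (hHW.ker _ ht).2 h
    · intro v' hv' hw'
      have hv'f : v' ∈ fixW (mrep σ) (bY y₁ b) w := by
        refine ⟨?_, hw'⟩
        rw [← hv']
        exact hbi v'
      obtain ⟨α, hα⟩ := hur (π v')
      refine ⟨α, (hHW.ker _ (sub_mem hv'f ((fixW (mrep σ) (bY y₁ b) w).smul_mem α ht))).1 ?_⟩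
      rw [map_sub, map_smul, hπt, ← hα, ← hπi v' hv'f, hv', sub_self]

end Pool.Agent.PP.CD2.H36
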